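import Mathlib
import Pool.Agent.R113.PercInf

/-!
# MP_e813d2_pr, Q1: the approximate three-point correlation inequality

For every locally finite connected graph (finite or infinite), all edge probabilities and all
distinct vertices `a, b, c`, `(P(abc) P(a|b|c) - P(ac|b) P(a|bc))^3 ≤ 54 P(ab|c)`.  Hence Q1 is
true (with `δ = ε^3 / 54`).
-/

set_option autoImplicit false

open MeasureTheory

namespace Pool.Agent.Results.MP_e813d2_pr.ApproximateThreePoint

universe u

/-- Bernoulli bond percolation on `G`: the edge `e` is open (`true`) with probability `p e`,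
independently; the law is the product measure on `{0,1}^E` -/
noncomputable def perc {V : Type u} (G : SimpleGraph V) (p : G.edgeSet → unitInterval) :
    Measure (G.edgeSet → Bool) :=
  Measure.infinitePi (fun e => ProbabilityTheory.bernoulliMeasure true false (p e))

/-- `x` and `y` lie in the same cluster: in one connected component of the subgraph of the open
edges -/
def Same {V : Type u} (G : SimpleGraph V) (ω : G.edgeSet → Bool) (x y : V) : Prop :=
  (SimpleGraph.fromEdgeSet {e | ∃ h : e ∈ G.edgeSet, ω ⟨e, h⟩ = true}).Reachable x y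

/-- `P(abc)` -/
noncomputable def Pabc {V : Type u} (G : SimpleGraph V) (p : G.edgeSet → unitInterval)
    (a b c : V) : ℝ := (perc G p).real {ω | Same G ω a b ∧ Same G ω a c}

/-- `P(a|b|c)` -/
noncomputable def Psep {V : Type u} (G : SimpleGraph V) (p : G.edgeSet → unitInterval)
    (a b c : V) : ℝ := (perc G p).real {ω | ¬ Same G ω a b ∧ ¬ Same G ω a c ∧ ¬ Same G ω b c}

/-- `P(xy|z)`: `x` and `y` share a cluster not containing `z` -/
noncomputable def Ppair {V : Type u} (G : SimpleGraph V) (p : G.edgeSet → unitInterval)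
    (x y z : V) : ℝ := (perc G p).real {ω | Same G ω x y ∧ ¬ Same G ω x z}

theorem pair_eq {V : Type u} (G : SimpleGraph V) (p : G.edgeSet → unitInterval) (a b c : V) :
    Ppair G p b c a = (perc G p).real {ω | Same G ω b c ∧ ¬ Same G ω a b} := by
  unfold Ppair
  congr 1
  ext ω
  constructor
  · rintro ⟨h1, h2⟩; exact ⟨h1, fun h => h2 h.symm⟩
  · rintro ⟨h1, h2⟩; exact ⟨h1, fun h => h2 h.symm⟩

/-- **Q1, affirmative answer**, with an explicit estimate.  `Ppair G p a b c` is `P(ab|c)`,
`Ppair G p a c b` is `P(ac|b)`, `Ppair G p b c a` is `P(a|bc)`. -/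
theorem result :
    (∀ (V : Type u) (G : SimpleGraph V) (p : G.edgeSet → unitInterval), G.Connected →
      (∀ v, (G.neighborSet v).Finite) → ∀ a b c : V, a ≠ b → a ≠ c → b ≠ c →
        (Pabc G p a b c * Psep G p a b c - Ppair G p a c b * Ppair G p b c a) ^ 3
          ≤ 54 * Ppair G p a b c) ∧
    (∀ ε : ℝ, 0 < ε → ∃ δ : ℝ, 0 < δ ∧
      ∀ (V : Type u) (G : SimpleGraph V) (p : G.edgeSet → unitInterval), G.Connected →
        (∀ v, (G.neighborSet v).Finite) → ∀ a b c : V, a ≠ b → a ≠ c → b ≠ c →
          Ppair G p a b c < δ →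
            Pabc G p a b c * Psep G p a b c - Ppair G p a c b * Ppair G p b c a < ε) := by
  have h1 : ∀ (V : Type u) (G : SimpleGraph V) (p : G.edgeSet → unitInterval), G.Connected →
      (∀ v, (G.neighborSet v).Finite) → ∀ a b c : V, a ≠ b → a ≠ c → b ≠ c →
        (Pabc G p a b c * Psep G p a b c - Ppair G p a c b * Ppair G p b c a) ^ 3
          ≤ 54 * Ppair G p a b c := by
    intro V G p hconn hfin a b c _ _ _
    have : Countable V := Pool.Agent.R113.PercInf.countable_of_locallyFinite hfin hconn
    rw [pair_eq G p a b c]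
    exact Pool.Agent.R113.PercInf.three p a b c
  refine ⟨h1, ?_⟩
  intro ε hε
  refine ⟨ε ^ 3 / 54, by positivity, ?_⟩
  intro V G p hconn hfin a b c hab hac hbc hlt
  have h2 := h1 V G p hconn hfin a b c hab hac hbc
  by_contra hcon
  push Not at hcon
  have h3 : ε ^ 3 ≤ (Pabc G p a b c * Psep G p a b c - Ppair G p a c b * Ppair G p b c a) ^ 3 :=
    pow_le_pow_left₀ hε.le hcon 3
  linarith

end Pool.Agent.Results.MP_e813d2_pr.ApproximateThreePoint
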